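import Mathlib
import Pool.Agent.Results.MP_339db1_al.NotGenerated

/-! MP_6189ff_al: the unit group of the universal CP monoid is generated by the images of the
finite symmetric groups. The definitions of CP structures are those of MP_339db1_al. -/

namespace Pool.Agent.Results.MP_6189ff_al.UnitsGenerated

open Pool.Agent.Results.MP_339db1_al.NotGenerated

/-- The map from the symmetric group to the monoid attached to a `d`-CP structure. -/
def psi {M : Type*} [Monoid M] {d : ℕ} (Φ : DCP M d) (σ : Equiv.Perm (Fin d)) : M :=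
  Φ.Φ fun i => Φ.τ (σ⁻¹ i)

/-- finite binary trees -/
inductive BTree : Type
  | leaf : BTree
  | node (c : Fin 2 → BTree) : BTree

open BTree

def isLeaf : BTree → List (Fin 2) → Prop
  | leaf, w => w = []
  | node _, [] => False
  | node c, i :: w => isLeaf (c i) w

def size : BTree → ℕ
  | leaf => 0
  | node c => 1 + size (c 0) + size (c 1)

theorem isLeaf_leaf (w : List (Fin 2)) : isLeaf leaf w ↔ w = [] := by simp [isLeaf]
theorem isLeaf_nil (c : Fin 2 → BTree) : ¬ isLeaf (node c) [] := by simp [isLeaf]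
theorem isLeaf_cons (c : Fin 2 → BTree) (i : Fin 2) (w : List (Fin 2)) :
    isLeaf (node c) (i :: w) ↔ isLeaf (c i) w := by simp [isLeaf]

theorem exists_leaf (T : BTree) : ∃ w, isLeaf T w := by
  induction T with
  | leaf => exact ⟨[], (isLeaf_leaf _).2 rfl⟩
  | node c ih =>
    obtain ⟨w, hw⟩ := ih 0
    exact ⟨0 :: w, (isLeaf_cons _ _ _).2 hw⟩

theorem two_leaves (c : Fin 2 → BTree) : ∃ v w, isLeaf (node c) v ∧ isLeaf (node c) w ∧ v ≠ w := by
  obtain ⟨v, hv⟩ := exists_leaf (c 0)
  obtain ⟨w, hw⟩ := exists_leaf (c 1)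
  exact ⟨0 :: v, 1 :: w, (isLeaf_cons _ _ _).2 hv, (isLeaf_cons _ _ _).2 hw, by simp⟩

theorem prefix_free (T : BTree) (w u : List (Fin 2)) (h1 : isLeaf T w) (h2 : isLeaf T (w ++ u)) :
    u = [] := by
  induction T generalizing w with
  | leaf =>
    rw [isLeaf_leaf] at h1 h2
    rw [h1] at h2
    exact h2
  | node c ih =>
    cases w with
    | nil => exact absurd h1 (isLeaf_nil c)
    | cons i w =>
      rw [isLeaf_cons] at h1
      rw [List.cons_append, isLeaf_cons] at h2
      exact ih i w h1 h2

/-- every tree with a node has a caret -/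
theorem exists_red (T : BTree) (hT : T ≠ leaf) : ∃ (α : List (Fin 2)) (T1 : BTree),
    size T1 < size T ∧ isLeaf T1 α ∧
      ∀ w, isLeaf T w ↔ (isLeaf T1 w ∧ w ≠ α) ∨ ∃ i, w = α ++ [i] := by
  induction T with
  | leaf => exact absurd rfl hT
  | node c ih =>
    by_cases h : ∃ i, c i ≠ leaf
    · obtain ⟨i, hi⟩ := h
      obtain ⟨α, T1, h1, h2, h3⟩ := ih i hi
      refine ⟨i :: α, node (Function.update c i T1), ?_, ?_, ?_⟩
      · fin_cases i
        · have e1 : Function.update c 0 T1 0 = T1 := Function.update_self _ _ _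
          have e2 : Function.update c 0 T1 1 = c 1 := Function.update_of_ne (by decide) _ _
          show 1 + size (Function.update c 0 T1 0) + size (Function.update c 0 T1 1) <
            1 + size (c 0) + size (c 1)
          rw [e1, e2]
          have h1' : size T1 < size (c 0) := h1
          omega
        · have e1 : Function.update c 1 T1 1 = T1 := Function.update_self _ _ _
          have e2 : Function.update c 1 T1 0 = c 0 := Function.update_of_ne (by decide) _ _
          show 1 + size (Function.update c 1 T1 0) + size (Function.update c 1 T1 1) <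
            1 + size (c 0) + size (c 1)
          rw [e1, e2]
          have h1' : size T1 < size (c 1) := h1
          omega
      · rw [isLeaf_cons, Function.update_self]
        exact h2
      · intro w
        cases w with
        | nil =>
          constructor
          · intro h; exact absurd h (isLeaf_nil c)
          · rintro (⟨h, _⟩ | ⟨j, h⟩)
            · exact absurd h (isLeaf_nil _)
            · simp at h
        | cons j w =>
          rw [isLeaf_cons, isLeaf_cons]
          by_cases hji : j = i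
          · subst hji
            rw [Function.update_self, h3]
            simp
          · rw [Function.update_of_ne hji]
            constructor
            · intro h
              left
              exact ⟨h, by simp [hji]⟩
            · rintro (⟨h, _⟩ | ⟨k, h⟩)
              · exact h
              · rw [List.cons_append] at h
                exact absurd (List.cons.inj h).1 hji
    · push Not at h
      refine ⟨[], leaf, ?_, ?_, ?_⟩
      · show 0 < 1 + size (c 0) + size (c 1)
        omega
      · exact (isLeaf_leaf _).2 rfl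
      · intro w
        cases w with
        | nil =>
          constructor
          · intro h; exact absurd h (isLeaf_nil c)
          · rintro (⟨_, h⟩ | ⟨j, h⟩)
            · exact absurd rfl h
            · simp at h
        | cons j w =>
          rw [isLeaf_cons, h j, isLeaf_leaf, isLeaf_leaf]
          constructor
          · intro hw
            exact Or.inr ⟨j, by rw [hw]; rfl⟩
          · rintro (⟨h, _⟩ | ⟨k, h⟩)
            · simp at h
            · rw [List.nil_append] at h
              exact (List.cons.inj h).2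

section

variable {U : Type} [Monoid U] (cp : DCP U 2)

/-- product of the distinguished elements along a path -/
def tw : List (Fin 2) → U
  | [] => 1
  | i :: w => tw w * cp.τ i

/-- element with prescribed values at the leaves -/
def val : BTree → (List (Fin 2) → U) → U
  | leaf, m => m []
  | node c, m => cp.Φ fun i => val (c i) fun w => m (i :: w)

theorem tw_append (w : List (Fin 2)) (i : Fin 2) : tw cp (w ++ [i]) = cp.τ i * tw cp w := by
  induction w with
  | nil => simp [tw]
  | cons j w ih =>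
    rw [List.cons_append]
    show tw cp (w ++ [i]) * cp.τ j = cp.τ i * (tw cp w * cp.τ j)
    rw [ih, mul_assoc]

theorem tw_val (T : BTree) (m : List (Fin 2) → U) (w : List (Fin 2)) (hw : isLeaf T w) :
    tw cp w * val cp T m = m w := by
  induction T generalizing w m with
  | leaf =>
    rw [isLeaf_leaf] at hw
    rw [hw]
    show 1 * m [] = m []
    rw [one_mul]
  | node c ih =>
    cases w with
    | nil => exact absurd hw (isLeaf_nil c)
    | cons i w =>
      rw [isLeaf_cons] at hw
      show tw cp w * cp.τ i * cp.Φ (fun i => val cp (c i) fun w => m (i :: w)) = m (i :: w)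
      rw [mul_assoc, cp.proj, ih i _ w hw]

theorem phi_tau (x : U) : cp.Φ (fun i => cp.τ i * x) = x := by
  obtain ⟨m, rfl⟩ := cp.bij.2 x
  congr 1
  funext i
  rw [cp.proj]

theorem ext_leaf (T : BTree) (x y : U) (h : ∀ w, isLeaf T w → tw cp w * x = tw cp w * y) :
    x = y := by
  induction T generalizing x y with
  | leaf =>
    have := h [] ((isLeaf_leaf _).2 rfl)
    have h1 : (1 : U) * x = 1 * y := this
    rwa [one_mul, one_mul] at h1
  | node c ih =>
    rw [← phi_tau cp x, ← phi_tau cp y]
    congr 1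
    funext i
    apply ih i
    intro w hw
    have := h (i :: w) ((isLeaf_cons _ _ _).2 hw)
    have h1 : tw cp w * cp.τ i * x = tw cp w * cp.τ i * y := this
    rw [mul_assoc, mul_assoc] at h1
    exact h1

/-- The structure in S(U) attached to a tree. -/
theorem exists_DCP (T : BTree) : ∃ (n : ℕ) (D : DCP U n) (e : Fin n ≃ {w // isLeaf T w}),
    InS cp n D ∧ (∀ k, D.τ k = tw cp (e k).1) ∧
      ∀ m : List (Fin 2) → U, D.Φ (fun k => m (e k).1) = val cp T m := by
  induction T with
  | leaf =>
    refine ⟨1, idCP U, ⟨fun _ => ⟨[], (isLeaf_leaf _).2 rfl⟩, fun _ => 0, fun k => by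
      rw [Subsingleton.elim k 0], fun w => Subtype.ext ((isLeaf_leaf _).1 w.2).symm⟩, InS.one,
      fun k => rfl, fun m => rfl⟩
  | node c ih =>
    choose n D e hD hτ hΦ using ih
    let g : ((i : Fin 2) × Fin (n i)) → {w // isLeaf (node c) w} := fun p =>
      ⟨p.1 :: (e p.1 p.2).1, (isLeaf_cons _ _ _).2 (e p.1 p.2).2⟩
    have hg : Function.Bijective g := by
      constructor
      · rintro ⟨i, j⟩ ⟨i', j'⟩ h
        have h1 : i :: (e i j).1 = i' :: (e i' j').1 := congrArg Subtype.val h
        obtain ⟨h2, h3⟩ := List.cons.inj h1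
        subst h2
        have h4 : e i j = e i j' := Subtype.ext h3
        rw [(e i).injective h4]
      · rintro ⟨w, hw⟩
        cases w with
        | nil => exact absurd hw (isLeaf_nil c)
        | cons i w =>
          have hw' := (isLeaf_cons c i w).1 hw
          refine ⟨⟨i, (e i).symm ⟨w, hw'⟩⟩, ?_⟩
          apply Subtype.ext
          show i :: (e i ((e i).symm ⟨w, hw'⟩)).1 = i :: w
          rw [Equiv.apply_symm_apply]
    refine ⟨_, combine cp D, finSigmaFinEquiv.symm.trans (Equiv.ofBijective g hg),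
      InS.comb cp InS.base D hD, ?_, ?_⟩
    · intro k
      show (D (finSigmaFinEquiv.symm k).1).τ (finSigmaFinEquiv.symm k).2 *
        cp.τ (finSigmaFinEquiv.symm k).1 = tw cp (g (finSigmaFinEquiv.symm k)).1
      rw [hτ]
      rfl
    · intro m
      show cp.Φ (fun i => (D i).Φ fun j =>
        m (g (finSigmaFinEquiv.symm (finSigmaFinEquiv ⟨i, j⟩))).1) = _
      simp only [Equiv.symm_apply_apply]
      show cp.Φ (fun i => (D i).Φ fun j => m (i :: (e i j).1)) =
        cp.Φ fun i => val cp (c i) fun w => m (i :: w)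
      congr 1
      funext i
      exact hΦ i (fun w => m (i :: w))

/-- the submonoid generated by the images of the symmetric groups -/
def HH : Submonoid U :=
  Submonoid.closure {u | ∃ (d : ℕ) (Φ : DCP U d) (σ : Equiv.Perm (Fin d)),
    2 ≤ d ∧ InS cp d Φ ∧ u = psi Φ σ}

/-- permutations of the leaves of a tree give elements of the submonoid -/
theorem perm_mem (c : Fin 2 → BTree) (ρ : Equiv.Perm (List (Fin 2)))
    (hρ : ∀ w, isLeaf (node c) w ↔ isLeaf (node c) (ρ w)) :
    val cp (node c) (fun w => tw cp (ρ w)) ∈ HH cp := by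
  obtain ⟨n, D, e, hD, hτ, hΦ⟩ := exists_DCP cp (node c)
  have hn : 2 ≤ n := by
    obtain ⟨v, w, hv, hw, hne⟩ := two_leaves c
    have h1 : (e.symm ⟨v, hv⟩) ≠ (e.symm ⟨w, hw⟩) := by
      intro h
      exact hne (congrArg Subtype.val (e.symm.injective h))
    have h2 : ((e.symm ⟨v, hv⟩ : Fin n) : ℕ) ≠ (e.symm ⟨w, hw⟩ : Fin n) :=
      fun h => h1 (Fin.ext h)
    have h3 := (e.symm ⟨v, hv⟩).2
    have h4 := (e.symm ⟨w, hw⟩).2
    omega
  let ρ' : Equiv.Perm {w // isLeaf (node c) w} := ρ.subtypePerm (fun w => (hρ w).symm)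
  let σ : Equiv.Perm (Fin n) := (e.trans (ρ'.trans e.symm))⁻¹
  apply Submonoid.subset_closure
  refine ⟨n, D, σ, hn, hD, ?_⟩
  unfold psi
  rw [← hΦ]
  congr 1
  funext k
  rw [hτ]
  have : (e (σ⁻¹ k)).1 = ρ (e k).1 := by
    show (e ((e.trans (ρ'.trans e.symm))⁻¹⁻¹ k)).1 = _
    rw [inv_inv]
    show (e (e.symm (ρ' (e k)))).1 = _
    rw [Equiv.apply_symm_apply]
    rfl
  rw [this]

open Classical in
theorem main (n : ℕ) : ∀ (T T' : BTree) (σ : List (Fin 2) → List (Fin 2)), size T ≤ n →
    Set.BijOn σ {w | isLeaf T w} {w | isLeaf T' w} →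
      val cp T (fun w => tw cp (σ w)) ∈ HH cp := by
  induction n with
  | zero =>
    intro T T' σ hT hσ
    cases T with
    | node c => exact absurd hT (by show ¬ (1 + size (c 0) + size (c 1) ≤ 0); omega)
    | leaf =>
      cases T' with
      | node c' =>
        obtain ⟨v, w, hv, hw, hne⟩ := two_leaves c'
        obtain ⟨a, ha, rfl⟩ := hσ.surjOn hv
        obtain ⟨b, hb, rfl⟩ := hσ.surjOn hw
        have ha' : a = [] := (isLeaf_leaf _).1 ha
        have hb' : b = [] := (isLeaf_leaf _).1 hb
        rw [ha', hb'] at hne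
        exact absurd rfl hne
      | leaf =>
        have h1 : σ [] = [] := (isLeaf_leaf _).1 (hσ.mapsTo ((isLeaf_leaf _).2 rfl))
        show tw cp (σ []) ∈ HH cp
        rw [h1]
        exact one_mem _
  | succ n ih =>
    intro T T' σ hT hσ
    cases T with
    | leaf => exact ih leaf T' σ (Nat.zero_le _) hσ
    | node c =>
      have hT'ne : T' ≠ leaf := by
        rintro rfl
        obtain ⟨v, w, hv, hw, hne⟩ := two_leaves c
        have h1 : σ v = [] := (isLeaf_leaf _).1 (hσ.mapsTo hv)
        have h2 : σ w = [] := (isLeaf_leaf _).1 (hσ.mapsTo hw)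
        exact hne (hσ.injOn hv hw (h1.trans h2.symm))
      obtain ⟨α, T1, hs, hα, hred⟩ := exists_red (node c) (by simp)
      obtain ⟨β, T1', _, hβ, hred'⟩ := exists_red T' hT'ne
      have hα0 : isLeaf (node c) (α ++ [0]) := (hred _).2 (Or.inr ⟨0, rfl⟩)
      have hα1 : isLeaf (node c) (α ++ [1]) := (hred _).2 (Or.inr ⟨1, rfl⟩)
      have hα01 : α ++ [0] ≠ α ++ [(1 : Fin 2)] := by simp
      obtain ⟨a, ha, haσ⟩ := hσ.surjOn ((hred' (β ++ [0])).2 (Or.inr ⟨0, rfl⟩))
      obtain ⟨b, hb, hbσ⟩ := hσ.surjOn ((hred' (β ++ [1])).2 (Or.inr ⟨1, rfl⟩))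
      have hab : a ≠ b := by
        rintro rfl
        rw [haσ] at hbσ
        simp at hbσ
      -- the permutation of the leaves
      obtain ⟨s1, hs1⟩ : ∃ s, s = Equiv.swap a (α ++ [0]) := ⟨_, rfl⟩
      obtain ⟨s2, hs2⟩ : ∃ s, s = Equiv.swap (s1 b) (α ++ [1]) := ⟨_, rfl⟩
      have hs1b : s1 b ≠ α ++ [0] := by
        intro h
        have : s1 a = α ++ [0] := by rw [hs1, Equiv.swap_apply_left]
        exact hab (s1.injective (this.trans h.symm))
      obtain ⟨ρ, hρ⟩ : ∃ ρ, ρ = s1.trans s2 := ⟨_, rfl⟩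
      have hρa : ρ a = α ++ [0] := by
        have e1 : s1 a = α ++ [0] := by rw [hs1, Equiv.swap_apply_left]
        rw [hρ, Equiv.trans_apply, e1, hs2]
        exact Equiv.swap_apply_of_ne_of_ne (Ne.symm hs1b) hα01
      have hρb : ρ b = α ++ [1] := by
        rw [hρ, Equiv.trans_apply, hs2, Equiv.swap_apply_left]
      have hswap : ∀ x y, isLeaf (node c) x → isLeaf (node c) y →
          ∀ w, isLeaf (node c) w ↔ isLeaf (node c) (Equiv.swap x y w) := by
        intro x y hx hy w
        by_cases h1 : w = x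
        · rw [h1, Equiv.swap_apply_left]
          exact ⟨fun _ => hy, fun _ => hx⟩
        · by_cases h2 : w = y
          · rw [h2, Equiv.swap_apply_right]
            exact ⟨fun _ => hx, fun _ => hy⟩
          · rw [Equiv.swap_apply_of_ne_of_ne h1 h2]
      have hs1leaf : ∀ w, isLeaf (node c) w ↔ isLeaf (node c) (s1 w) := by
        rw [hs1]
        exact hswap _ _ ha hα0
      have hs2leaf : ∀ w, isLeaf (node c) w ↔ isLeaf (node c) (s2 w) := by
        rw [hs2]
        exact hswap _ _ ((hs1leaf b).1 hb) hα1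
      have hρleaf : ∀ w, isLeaf (node c) w ↔ isLeaf (node c) (ρ w) := by
        intro w
        rw [hρ, Equiv.trans_apply, ← hs2leaf, ← hs1leaf]
      obtain ⟨σ0, hσ0⟩ : ∃ σ0 : List (Fin 2) → List (Fin 2), σ0 = fun w => σ (ρ.symm w) :=
        ⟨_, rfl⟩
      have hσ0ρ : ∀ w, σ0 (ρ w) = σ w := by
        intro w
        rw [hσ0]
        show σ (ρ.symm (ρ w)) = σ w
        rw [Equiv.symm_apply_apply]
      have hσ00 : σ0 (α ++ [0]) = β ++ [0] := by rw [← hρa, hσ0ρ, haσ]
      have hσ01 : σ0 (α ++ [1]) = β ++ [1] := by rw [← hρb, hσ0ρ, hbσ]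
      have hσ0i : ∀ i : Fin 2, σ0 (α ++ [i]) = β ++ [i] := by
        intro i
        fin_cases i
        · exact hσ00
        · exact hσ01
      have hρsymm : ∀ w, isLeaf (node c) w ↔ isLeaf (node c) (ρ.symm w) := by
        intro w
        rw [hρleaf (ρ.symm w), Equiv.apply_symm_apply]
      have hσ0bij : Set.BijOn σ0 {w | isLeaf (node c) w} {w | isLeaf T' w} := by
        refine ⟨?_, ?_, ?_⟩
        · intro w hw
          rw [hσ0]
          exact hσ.mapsTo ((hρsymm w).1 hw)
        · intro x hx y hy hxy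
          rw [hσ0] at hxy
          exact ρ.symm.injective (hσ.injOn ((hρsymm x).1 hx) ((hρsymm y).1 hy) hxy)
        · intro v hv
          obtain ⟨w, hw, rfl⟩ := hσ.surjOn hv
          exact ⟨ρ w, (hρleaf w).1 hw, hσ0ρ w⟩
      -- factorisation
      have hfact : val cp (node c) (fun w => tw cp (σ w)) =
          val cp (node c) (fun w => tw cp (ρ w)) * val cp (node c) (fun w => tw cp (σ0 w)) := by
        apply ext_leaf cp (node c)
        intro w hw
        rw [tw_val cp _ _ w hw, ← mul_assoc, tw_val cp _ _ w hw, tw_val cp _ _ _ ((hρleaf w).1 hw),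
          hσ0ρ]
      rw [hfact]
      refine mul_mem (perm_mem cp c ρ hρleaf) ?_
      -- reduction
      have hnotα : ∀ i : Fin 2, ¬ isLeaf T1 (α ++ [i]) := by
        intro i h
        have := prefix_free T1 α [i] hα h
        simp at this
      have hnotβ : ∀ i : Fin 2, ¬ isLeaf T1' (β ++ [i]) := by
        intro i h
        have := prefix_free T1' β [i] hβ h
        simp at this
      obtain ⟨σ1, hσ1⟩ : ∃ σ1 : List (Fin 2) → List (Fin 2),
        σ1 = fun w => if w = α then β else σ0 w := ⟨_, rfl⟩
      have hσ1α : σ1 α = β := by rw [hσ1]; simp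
      have hσ1ne : ∀ w, w ≠ α → σ1 w = σ0 w := by
        intro w hw
        rw [hσ1]
        simp [hw]
      have hlift : ∀ w, isLeaf T1 w → w ≠ α → isLeaf (node c) w := fun w h1 h2 =>
        (hred w).2 (Or.inl ⟨h1, h2⟩)
      have himg : ∀ w, isLeaf T1 w → w ≠ α → isLeaf T1' (σ0 w) ∧ σ0 w ≠ β := by
        intro w h1 h2
        have h3 : isLeaf T' (σ0 w) := hσ0bij.mapsTo (hlift w h1 h2)
        rcases (hred' _).1 h3 with h4 | ⟨i, h4⟩
        · exact h4
        · exfalso
          rw [← hσ0i] at h4
          have h5 := hσ0bij.injOn (hlift w h1 h2) ((hred _).2 (Or.inr ⟨i, rfl⟩)) h4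
          rw [h5] at h1
          exact hnotα i h1
      have hσ1bij : Set.BijOn σ1 {w | isLeaf T1 w} {w | isLeaf T1' w} := by
        refine ⟨?_, ?_, ?_⟩
        · intro w hw
          by_cases h : w = α
          · rw [h, hσ1α]; exact hβ
          · rw [hσ1ne w h]; exact (himg w hw h).1
        · intro x hx y hy hxy
          by_cases h1 : x = α <;> by_cases h2 : y = α
          · rw [h1, h2]
          · rw [h1, hσ1α, hσ1ne y h2] at hxy
            exact absurd hxy.symm (himg y hy h2).2
          · rw [h2, hσ1α, hσ1ne x h1] at hxy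
            exact absurd hxy (himg x hx h1).2
          · rw [hσ1ne x h1, hσ1ne y h2] at hxy
            exact hσ0bij.injOn (hlift x hx h1) (hlift y hy h2) hxy
        · intro v hv
          by_cases h : v = β
          · exact ⟨α, hα, by rw [h, hσ1α]⟩
          · obtain ⟨w, hw, hwv⟩ := hσ0bij.surjOn ((hred' v).2 (Or.inl ⟨hv, h⟩))
            rcases (hred w).1 hw with h4 | ⟨i, h4⟩
            · exact ⟨w, h4.1, by rw [hσ1ne w h4.2, hwv]⟩
            · exfalso
              rw [h4, hσ0i] at hwv
              have hv' : isLeaf T1' v := hv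
              rw [← hwv] at hv'
              exact hnotβ i hv'
      have hval : val cp (node c) (fun w => tw cp (σ0 w)) =
          val cp T1 (fun w => tw cp (σ1 w)) := by
        apply ext_leaf cp (node c)
        intro w hw
        rw [tw_val cp _ _ w hw]
        rcases (hred w).1 hw with h4 | ⟨i, h4⟩
        · rw [tw_val cp _ _ w h4.1, hσ1ne w h4.2]
        · rw [h4, hσ0i, tw_append, tw_append, mul_assoc, tw_val cp _ _ α hα, hσ1α]
      rw [hval]
      exact ih T1 T1' σ1 (by omega) hσ1bij

/-- elements of the form `val T (tw ∘ wd)` -/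
def NF (u : U) : Prop := ∃ (T : BTree) (wd : List (Fin 2) → List (Fin 2)),
  u = val cp T fun w => tw cp (wd w)

theorem NF_tw (w : List (Fin 2)) : NF cp (tw cp w) := ⟨leaf, fun _ => w, rfl⟩

theorem NF_phi (m : Fin 2 → U) (h : ∀ i, NF cp (m i)) : NF cp (cp.Φ m) := by
  choose T wd hT using h
  refine ⟨node T, fun w => match w with
    | [] => []
    | i :: w => wd i w, ?_⟩
  show cp.Φ m = cp.Φ fun i => val cp (T i) fun w => tw cp (wd i w)
  congr 1
  funext i
  exact hT i

theorem NF_tau (i : Fin 2) (u : U) (h : NF cp u) : NF cp (cp.τ i * u) := by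
  obtain ⟨T, wd, rfl⟩ := h
  cases T with
  | leaf =>
    show NF cp (cp.τ i * tw cp (wd []))
    rw [← tw_append]
    exact NF_tw cp _
  | node c =>
    show NF cp (cp.τ i * cp.Φ fun i => val cp (c i) fun w => tw cp (wd (i :: w)))
    rw [cp.proj]
    exact ⟨c i, fun w => wd (i :: w), rfl⟩

theorem NF_tw_mul (w : List (Fin 2)) (u : U) (h : NF cp u) : NF cp (tw cp w * u) := by
  induction w generalizing u with
  | nil =>
    show NF cp (1 * u)
    rw [one_mul]
    exact h
  | cons i w ih =>
    show NF cp (tw cp w * cp.τ i * u)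
    rw [mul_assoc]
    exact ih _ (NF_tau cp i u h)

theorem phi_mul (m : Fin 2 → U) (x : U) : cp.Φ m * x = cp.Φ fun i => m i * x := by
  rw [← phi_tau cp (cp.Φ m * x)]
  congr 1
  funext i
  rw [← mul_assoc, cp.proj]

theorem NF_mul (u v : U) (hu : NF cp u) (hv : NF cp v) : NF cp (u * v) := by
  obtain ⟨T, wd, rfl⟩ := hu
  induction T generalizing wd with
  | leaf => exact NF_tw_mul cp _ _ hv
  | node c ih =>
    show NF cp ((cp.Φ fun i => val cp (c i) fun w => tw cp (wd (i :: w))) * v)
    rw [phi_mul]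
    exact NF_phi cp _ (fun i => ih i _)

theorem NF_term (t : Tm) : NF cp (evT cp t) := by
  induction t with
  | one => exact NF_tw cp []
  | p i =>
    have : evT cp (Tm.p i) = tw cp [i] := by
      show cp.τ i = 1 * cp.τ i
      rw [one_mul]
    rw [this]
    exact NF_tw cp _
  | mul a b iha ihb => exact NF_mul cp _ _ iha ihb
  | sg a b iha ihb =>
    show NF cp (cp.Φ fun i => if i = 0 then evT cp a else evT cp b)
    apply NF_phi
    intro i
    split_ifs
    · exact iha
    · exact ihb

theorem NF_all (hU : IsUniversal U cp) (u : U) : NF cp u := by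
  obtain ⟨g, hg, _⟩ := hU Pool.Agent.Results.MP_339db1_al.NotGenerated.U cpU
  obtain ⟨i, _, hi⟩ := hU U cp
  have hev : IsHom cpU cp (evU cp) := by
    obtain ⟨f, hf, hf'⟩ := universal_U U cp
    have h1 : IsHom cpU cp (evU cp) := by
      refine ⟨fun i => rfl, fun m => ?_⟩
      show evU cp (sgU (m 0) (m 1)) = _
      obtain ⟨a, ha⟩ := Quotient.exists_rep (m 0)
      obtain ⟨b, hb⟩ := Quotient.exists_rep (m 1)
      rw [← ha, ← hb]
      show (cp.Φ fun i => if i = 0 then evT cp a else evT cp b) = _
      congr 1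
      funext i
      fin_cases i
      · show evT cp a = evU cp (m 0)
        rw [← ha]
        rfl
      · show evT cp b = evU cp (m 1)
        rw [← hb]
        rfl
    exact h1
  have h1 : (evU cp).comp g = i := hi _ ⟨fun j => by
    show evU cp (g (cp.τ j)) = cp.τ j
    rw [hg.1, hev.1], fun m => by
    show evU cp (g (cp.Φ m)) = cp.Φ fun i => evU cp (g (m i))
    rw [hg.2, hev.2]⟩
  have h2 : MonoidHom.id U = i := hi _ ⟨fun j => rfl, fun m => rfl⟩
  have h3 : evU cp (g u) = u := by
    have : (evU cp).comp g = MonoidHom.id U := h1.trans h2.symm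
    exact congrArg (fun f : U →* U => f u) this
  obtain ⟨t, ht⟩ := Quotient.exists_rep (g u)
  rw [← h3, ← ht]
  exact NF_term cp t

/-! ### Units -/

def cat : List (Fin 2) → (ℕ → Bool) → (ℕ → Bool)
  | [], y => y
  | i :: w, y => cons i (cat w y)

theorem cons_inj (i j : Fin 2) (x y : ℕ → Bool) (h : cons i x = cons j y) : i = j ∧ x = y := by
  have h1 := congrArg hd h
  have h2 := congrArg tl h
  rw [hd_cons, hd_cons] at h1
  rw [tl_cons, tl_cons] at h2
  exact ⟨h1, h2⟩

theorem h_tw (h : U →* Fn) (hh : IsHom cp cpF h) (w : List (Fin 2)) :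
    (h (tw cp w)).f = cat w := by
  induction w with
  | nil =>
    show (h 1).f = _
    rw [map_one]
    rfl
  | cons i w ih =>
    show (h (tw cp w * cp.τ i)).f = _
    rw [map_mul, mul_f, ih, hh.1]
    rfl

theorem cover (T : BTree) (z : ℕ → Bool) : ∃ w y, isLeaf T w ∧ z = cat w y := by
  induction T generalizing z with
  | leaf => exact ⟨[], z, (isLeaf_leaf _).2 rfl, rfl⟩
  | node c ih =>
    obtain ⟨w, y, hw, hy⟩ := ih (hd z) (tl z)
    refine ⟨hd z :: w, y, (isLeaf_cons _ _ _).2 hw, ?_⟩
    show z = cons (hd z) (cat w y)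
    rw [← hy, cons_hd_tl]

theorem cover_uniq (T : BTree) (w w' : List (Fin 2)) (y y' : ℕ → Bool) (hw : isLeaf T w)
    (hw' : isLeaf T w') (h : cat w y = cat w' y') : w = w' ∧ y = y' := by
  induction T generalizing w w' with
  | leaf =>
    rw [isLeaf_leaf] at hw hw'
    rw [hw, hw'] at h
    exact ⟨hw.trans hw'.symm, h⟩
  | node c ih =>
    cases w with
    | nil => exact absurd hw (isLeaf_nil c)
    | cons i w =>
      cases w' with
      | nil => exact absurd hw' (isLeaf_nil c)
      | cons j w' =>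
        obtain ⟨h1, h2⟩ := cons_inj i j _ _ h
        subst h1
        rw [isLeaf_cons] at hw hw'
        obtain ⟨h3, h4⟩ := ih i w w' hw hw' h2
        exact ⟨by rw [h3], h4⟩

/-- a finite complete code of words is the set of leaves of a tree -/
theorem tree_of_code (N : ℕ) : ∀ W : Set (List (Fin 2)), (∀ v ∈ W, v.length ≤ N) →
    (∀ z, ∃ v ∈ W, ∃ y, z = cat v y) →
    (∀ v ∈ W, ∀ v' ∈ W, ∀ y y', cat v y = cat v' y' → v = v') →
    ∃ T, ∀ v, v ∈ W ↔ isLeaf T v := by
  have hnil : ∀ W : Set (List (Fin 2)), [] ∈ W →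
      (∀ v ∈ W, ∀ v' ∈ W, ∀ y y', cat v y = cat v' y' → v = v') →
      ∃ T, ∀ v, v ∈ W ↔ isLeaf T v := by
    intro W h0 hu
    refine ⟨leaf, fun v => ⟨fun hv => ?_, fun hv => ?_⟩⟩
    · rw [isLeaf_leaf]
      exact (hu [] h0 v hv (cat v fun _ => true) (fun _ => true) rfl).symm
    · rw [isLeaf_leaf] at hv
      rw [hv]
      exact h0
  induction N with
  | zero =>
    intro W hlen hcov hu
    obtain ⟨v, hv, _⟩ := hcov fun _ => true
    have : v = [] := List.eq_nil_of_length_eq_zero (Nat.le_zero.1 (hlen v hv))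
    rw [this] at hv
    exact hnil W hv hu
  | succ N ih =>
    intro W hlen hcov hu
    by_cases h0 : [] ∈ W
    · exact hnil W h0 hu
    have hsub : ∀ i : Fin 2, ∃ T, ∀ v, v ∈ {v | i :: v ∈ W} ↔ isLeaf T v := by
      intro i
      apply ih
      · intro v hv
        have := hlen _ hv
        simpa using this
      · intro z
        obtain ⟨v, hv, y, hy⟩ := hcov (cons i z)
        cases v with
        | nil => exact absurd hv h0
        | cons j v =>
          obtain ⟨h1, h2⟩ := cons_inj i j _ _ hy
          subst h1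
          exact ⟨v, hv, y, h2⟩
      · intro v hv v' hv' y y' h
        have := hu (i :: v) hv (i :: v') hv' y y' (by
          show cons i (cat v y) = cons i (cat v' y')
          rw [h])
        exact (List.cons.inj this).2
    choose T hT using hsub
    refine ⟨node T, fun v => ?_⟩
    cases v with
    | nil => exact ⟨fun h => absurd h h0, fun h => absurd h (isLeaf_nil T)⟩
    | cons i v =>
      rw [isLeaf_cons, ← hT i v]
      rfl

theorem leaves_bdd (T : BTree) (wd : List (Fin 2) → List (Fin 2)) :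
    ∃ N, ∀ w, isLeaf T w → (wd w).length ≤ N := by
  induction T generalizing wd with
  | leaf =>
    refine ⟨(wd []).length, fun w hw => ?_⟩
    rw [isLeaf_leaf] at hw
    rw [hw]
  | node c ih =>
    choose N hN using fun i => ih i (fun w => wd (i :: w))
    refine ⟨N 0 + N 1, fun w hw => ?_⟩
    cases w with
    | nil => exact absurd hw (isLeaf_nil c)
    | cons i w =>
      rw [isLeaf_cons] at hw
      have := hN i w hw
      fin_cases i
      · exact this.trans (Nat.le_add_right _ _)
      · exact this.trans (Nat.le_add_left _ _)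

theorem unit_mem (hU : IsUniversal U cp) (u : Uˣ) : (u : U) ∈ HH cp := by
  obtain ⟨h, hh, _⟩ := hU Fn cpF
  obtain ⟨T, wd, hT⟩ := NF_all cp hU (u : U)
  have hact : ∀ w, isLeaf T w → ∀ y, (h (u : U)).f (cat w y) = cat (wd w) y := by
    intro w hw y
    have h1 : tw cp w * (u : U) = tw cp (wd w) := by
      rw [hT]
      exact tw_val cp T _ w hw
    have h2 := congrArg (fun x => (h x).f y) h1
    simp only [map_mul, mul_f, Function.comp_apply, h_tw cp h hh] at h2
    exact h2
  have hinj : Function.Injective (h (u : U)).f := by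
    have : (h ((u⁻¹ : Uˣ) : U)).f ∘ (h (u : U)).f = id := by
      rw [← mul_f, ← map_mul, Units.mul_inv, map_one]
      rfl
    exact Function.LeftInverse.injective (congrFun this)
  have hsurj : Function.Surjective (h (u : U)).f := by
    have : (h (u : U)).f ∘ (h ((u⁻¹ : Uˣ) : U)).f = id := by
      rw [← mul_f, ← map_mul, Units.inv_mul, map_one]
      rfl
    exact Function.RightInverse.surjective (congrFun this)
  have huniq : ∀ w w', isLeaf T w → isLeaf T w' → ∀ y y',
      cat (wd w) y = cat (wd w') y' → w = w' := by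
    intro w w' hw hw' y y' he
    rw [← hact w hw, ← hact w' hw'] at he
    exact (cover_uniq T w w' y y' hw hw' (hinj he)).1
  obtain ⟨N, hN⟩ := leaves_bdd T wd
  obtain ⟨T', hT'⟩ := tree_of_code N {v | ∃ w, isLeaf T w ∧ wd w = v} (by
      rintro _ ⟨w, hw, rfl⟩
      exact hN w hw) (by
      intro z
      obtain ⟨x, hx⟩ := hsurj z
      obtain ⟨w, y, hw, hy⟩ := cover T x
      refine ⟨wd w, ⟨w, hw, rfl⟩, y, ?_⟩
      rw [← hx, hy, hact w hw]) (by
      rintro _ ⟨w, hw, rfl⟩ _ ⟨w', hw', rfl⟩ y y' he
      rw [huniq w w' hw hw' y y' he])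
  rw [hT]
  refine main cp (size T) T T' wd (le_refl _) ⟨?_, ?_, ?_⟩
  · intro w hw
    exact (hT' _).1 ⟨w, hw, rfl⟩
  · intro x hx y hy hxy
    exact huniq x y hx hy (fun _ => true) (fun _ => true) (by rw [hxy])
  · intro v hv
    obtain ⟨w, hw, hwv⟩ := (hT' v).2 hv
    exact ⟨w, hw, hwv⟩

end

theorem phi_tau_gen {M : Type*} [Monoid M] {d : ℕ} (Φ : DCP M d) (x : M) :
    Φ.Φ (fun i => Φ.τ i * x) = x := by
  obtain ⟨m, rfl⟩ := Φ.bij.2 x
  congr 1
  funext i
  rw [Φ.proj]

theorem psi_mul {M : Type*} [Monoid M] {d : ℕ} (Φ : DCP M d) (σ ρ : Equiv.Perm (Fin d)) :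
    psi Φ σ * psi Φ ρ = psi Φ (σ * ρ) := by
  rw [← phi_tau_gen Φ (psi Φ σ * psi Φ ρ)]
  unfold psi
  congr 1
  funext i
  rw [← mul_assoc, Φ.proj, Φ.proj, mul_inv_rev]
  rfl

theorem psi_one {M : Type*} [Monoid M] {d : ℕ} (Φ : DCP M d) : psi Φ 1 = 1 := by
  unfold psi
  have := phi_tau_gen Φ 1
  simpa using this

/-- The universal CP monoid exists, and the unit group of every universal CP monoid is
generated by the images of the symmetric groups. -/
theorem result : (∃ (U : Type) (_ : Monoid U) (cp : DCP U 2), IsUniversal U cp) ∧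
    ∀ (U : Type) [Monoid U] (cp : DCP U 2), IsUniversal U cp →
      Subgroup.closure {u : Uˣ | ∃ (d : ℕ) (Φ : DCP U d) (σ : Equiv.Perm (Fin d)),
        2 ≤ d ∧ InS cp d Φ ∧ (u : U) = psi Φ σ} = ⊤ := by
  refine ⟨⟨_, inferInstance, cpU, universal_U⟩, fun U _ cp hU => ?_⟩
  rw [eq_top_iff]
  intro u _
  have key : ∀ x ∈ HH cp, ∃ v : Uˣ, (v : U) = x ∧
      v ∈ Subgroup.closure {u : Uˣ | ∃ (d : ℕ) (Φ : DCP U d) (σ : Equiv.Perm (Fin d)),
        2 ≤ d ∧ InS cp d Φ ∧ (u : U) = psi Φ σ} := by
    intro x hx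
    induction hx using Submonoid.closure_induction with
    | mem x hx =>
      obtain ⟨d, Φ, σ, hd, hΦ, rfl⟩ := hx
      refine ⟨⟨psi Φ σ, psi Φ σ⁻¹, ?_, ?_⟩, rfl, ?_⟩
      · rw [psi_mul, mul_inv_cancel, psi_one]
      · rw [psi_mul, inv_mul_cancel, psi_one]
      · exact Subgroup.subset_closure ⟨d, Φ, σ, hd, hΦ, rfl⟩
    | one => exact ⟨1, rfl, one_mem _⟩
    | mul x y _ _ ihx ihy =>
      obtain ⟨v, rfl, hv⟩ := ihx
      obtain ⟨w, rfl, hw⟩ := ihy
      exact ⟨v * w, rfl, mul_mem hv hw⟩
  obtain ⟨v, hv, hvm⟩ := key _ (unit_mem cp hU u)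
  have : v = u := Units.ext hv
  rw [← this]
  exact hvm

end Pool.Agent.Results.MP_6189ff_al.UnitsGenerated
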